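import Pool.Agent.P8H65.ET.Fun2

/-!
# Project ET, package FUN1: independence from exponential functions
-/

set_option autoImplicit false

open Filter Topology

namespace Pool.Agent.P8H65.ET

open Pool.Agent.P8H10.ET

noncomputable section

/-- the shift on sequences -/
def shf : Module.End ℂ (ℕ → ℂ) where
  toFun f := fun n => f (n + 1)
  map_add' _ _ := rfl
  map_smul' _ _ := rfl

/-- the sequence `P n z ^ n` -/
def sq (P : Polynomial ℂ) (z : ℂ) : ℕ → ℂ := fun n => P.eval (n : ℂ) * z ^ n

lemma sq_step (P : Polynomial ℂ) (z : ℂ) :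
    (shf - z • (1 : Module.End ℂ (ℕ → ℂ))) (sq P z) =
      sq (Polynomial.C z * (Polynomial.taylor 1 P - P)) z := by
  funext n
  simp only [LinearMap.sub_apply, LinearMap.smul_apply, Module.End.one_apply, Pi.sub_apply,
    Pi.smul_apply, smul_eq_mul,
    sq, shf, LinearMap.coe_mk, AddHom.coe_mk, Polynomial.eval_mul, Polynomial.eval_C,
    Polynomial.eval_sub, Polynomial.taylor_eval]
  push_cast
  ring

lemma sq_mem (z : ℂ) (hz : z ≠ 0) : ∀ (k : ℕ) (P : Polynomial ℂ), P.degree < k →
    ((shf - z • (1 : Module.End ℂ (ℕ → ℂ))) ^ k) (sq P z) = 0 := by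
  intro k
  induction k with
  | zero =>
    intro P hP
    have : P = 0 := by
      rw [← Polynomial.degree_eq_bot]
      exact Nat.WithBot.lt_zero_iff.1 (by exact_mod_cast hP)
    rw [this, pow_zero]
    funext n
    simp [sq]
  | succ k ih =>
    intro P hP
    rw [pow_succ, Module.End.mul_apply, sq_step]
    refine ih _ ?_
    rw [Polynomial.degree_C_mul hz]
    by_cases h0 : P = 0
    · rw [h0]
      simp
    · have h1 : (Polynomial.taylor 1 P - P).degree < (Polynomial.taylor 1 P).degree := by
        refine Polynomial.degree_sub_lt_left (Polynomial.degree_taylor P 1) ?_ ?_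
        · intro h
          exact h0 (Polynomial.taylor_injective 1 (by rw [h, map_zero]))
        · rw [Polynomial.leadingCoeff_taylor]
      rw [Polynomial.degree_taylor] at h1
      have h2 : P.degree < (k : WithBot ℕ) + 1 := by exact_mod_cast hP
      have h3 : P.degree ≤ k := by
        rcases eq_or_ne P 0 with h | h
        · exact absurd h h0
        · rw [Polynomial.degree_eq_natDegree h] at h2 ⊢
          have : P.natDegree < k + 1 := by exact_mod_cast h2
          exact_mod_cast Nat.lt_succ_iff.1 this
      exact lt_of_lt_of_le h1 h3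

/-- exponential polynomials with different nonzero bases are independent -/
lemma exp_poly (N : ℕ) (P : Fin N → Polynomial ℂ) (z : Fin N → ℂ) (hz : ∀ i, z i ≠ 0)
    (hinj : Function.Injective z) (h : ∀ n : ℕ, ∑ i, (P i).eval (n : ℂ) * z i ^ n = 0) :
    ∀ i, P i = 0 := by
  have h1 := (Module.End.independent_maxGenEigenspace shf).comp hinj
  rw [iSupIndep_iff_finsetSum_eq_zero_imp_eq_zero] at h1
  have h2 := h1 Finset.univ (fun i => sq (P i) (z i)) (fun i _ => by
    show sq (P i) (z i) ∈ shf.maxGenEigenspace (z i)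
    rw [Module.End.mem_maxGenEigenspace]
    refine ⟨(P i).natDegree + 1, sq_mem (z i) (hz i) _ _ ?_⟩
    exact lt_of_le_of_lt Polynomial.degree_le_natDegree (by exact_mod_cast Nat.lt_succ_self _)) (by
    funext n
    rw [Finset.sum_apply]
    exact h n)
  intro i
  have h3 := h2 i (Finset.mem_univ i)
  refine zero_of_nat (P i) 1 0 one_ne_zero (fun n => ?_)
  have h4 := congrFun h3 n
  rw [one_mul, add_zero]
  have h5 : (P i).eval (n : ℂ) * z i ^ n = 0 := h4
  rcases mul_eq_zero.1 h5 with h6 | h6
  · exact h6
  · exact absurd h6 (pow_ne_zero n (hz i))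

/-- **FUN1.** -/
theorem fun1 : S_MOD → S_FUN2 → S_FUN1 := by
  intro hM h2 N A c hc h i
  refine h2 (A i) (fun τ hτ => ?_)
  have key := exp_poly N (fun i => MvPolynomial.aeval
    ![Polynomial.X + Polynomial.C τ, Polynomial.C (EG 4 τ), Polynomial.C (EG 6 τ)] (A i) *
      Polynomial.C (Complex.exp (c i * τ))) (fun i => Complex.exp (c i)) (fun i => Complex.exp_ne_zero _)
    (fun i j hij => by
      by_contra hne
      exact hc i j hne hij) (fun n => by
      rw [← h (τ + n) (by simpa using hτ)]
      refine Finset.sum_congr rfl (fun i _ => ?_)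
      rw [Polynomial.eval_mul, eval_aeval, Polynomial.eval_C, mul_assoc, mul_add, Complex.exp_add,
        mul_comm (c i) (n : ℂ), Complex.exp_nat_mul, EG_shift hM 4 n τ hτ.ne',
        EG_shift hM 6 n τ hτ.ne']
      congr 2
      congr 1
      funext j
      fin_cases j <;> simp [add_comm]) i
  have h3 := congrArg (Polynomial.eval 0) key
  rw [Polynomial.eval_mul, eval_aeval, Polynomial.eval_C, Polynomial.eval_zero] at h3
  rcases mul_eq_zero.1 h3 with h4 | h4
  · have e : (fun i => Polynomial.eval 0 (![Polynomial.X + Polynomial.C τ, Polynomial.C (EG 4 τ),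
        Polynomial.C (EG 6 τ)] i)) = ![τ, EG 4 τ, EG 6 τ] := by
      funext j
      fin_cases j <;> simp
    rw [e] at h4
    exact h4
  · exact absurd h4 (Complex.exp_ne_zero _)

end

end Pool.Agent.P8H65.ET
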