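import Pool.Agent.P8H10.ET.StmC
import Pool.Agent.H667R3.W6

/-!
# Project ET, package FUN2: `τ`, `EG 4`, `EG 6` are algebraically independent
-/

set_option autoImplicit false

open Filter Topology
open scoped PeriodPair

namespace Pool.Agent.P8H65.ET

open Pool.Agent.P8H10.ET

noncomputable section

/-- the lattice of `1` and `τ` -/
def pp (τ : ℂ) (hτ : τ.im ≠ 0) : PeriodPair where
  ω₁ := 1
  ω₂ := τ
  indep := by
    rw [LinearIndependent.pair_iff]
    intro s t h
    simp only [Complex.real_smul, mul_one] at h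
    have h1 := congrArg Complex.im h
    have h2 := congrArg Complex.re h
    simp at h1 h2
    rcases h1 with h1 | h1
    · rw [h1] at h2
      exact ⟨by simpa using h2, h1⟩
    · exact absurd h1 hτ

/-- not both invariants of a lattice vanish -/
lemma not_both (L : PeriodPair) (h2 : L.g₂ = 0) (h3 : L.g₃ = 0) : False := by
  have a1 := L.derivWeierstrassP_sq _ L.ω₁_div_two_notMem_lattice
  have a2 := L.derivWeierstrassP_sq _ L.ω₂_div_two_notMem_lattice
  rw [H667R3.wp'_half_eq_zero L L.ω₁_mem_lattice, h2, h3] at a1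
  rw [H667R3.wp'_half_eq_zero L L.ω₂_mem_lattice, h2, h3] at a2
  have b1 : ℘[L] (L.ω₁ / 2) = 0 := by
    have : ℘[L] (L.ω₁ / 2) ^ 3 = 0 := by linear_combination (-1/4) * a1
    exact pow_eq_zero_iff (by norm_num) |>.mp this
  have b2 : ℘[L] (L.ω₂ / 2) = 0 := by
    have : ℘[L] (L.ω₂ / 2) ^ 3 = 0 := by linear_combination (-1/4) * a2
    exact pow_eq_zero_iff (by norm_num) |>.mp this
  have h := (H667R3.wp_eq_iff L L.ω₁_div_two_notMem_lattice L.ω₂_div_two_notMem_lattice).mp
    (by rw [b1, b2])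
  rcases h with h | h
  · exact H667R3.half_add_half_notMem L h
  · exact H667R3.half_sub_half_notMem L h

lemma G_pp (hGE : S_GE) (τ : ℂ) (hτ : τ.im ≠ 0) (k : ℕ) : (pp τ hτ).G k = EG k τ := by
  rw [hGE]
  show ((1 : ℂ) ^ k)⁻¹ * EG k (τ / 1) = _
  rw [one_pow, inv_one, one_mul, div_one]

lemma EG_both (hGE : S_GE) (τ : ℂ) (hτ : τ.im ≠ 0) (h4 : EG 4 τ = 0) (h6 : EG 6 τ = 0) : False := by
  refine not_both (pp τ hτ) ?_ ?_
  · rw [PeriodPair.g₂, G_pp hGE, h4, mul_zero]
  · rw [PeriodPair.g₃, G_pp hGE, h6, mul_zero]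

lemma EG6_I (hM : S_MOD) : EG 6 Complex.I = 0 := by
  have h := hM 6 0 (-1) 1 0 (by norm_num) Complex.I (by simp)
  have e1 : (((0 : ℤ) : ℂ) * Complex.I + ((-1 : ℤ) : ℂ)) / (((1 : ℤ) : ℂ) * Complex.I + ((0 : ℤ) : ℂ)) =
      Complex.I := by
    push_cast
    rw [zero_mul, zero_add, one_mul, add_zero, div_eq_iff Complex.I_ne_zero, Complex.I_mul_I]
  have e2 : (((1 : ℤ) : ℂ) * Complex.I + ((0 : ℤ) : ℂ)) ^ 6 = -1 := by
    push_cast
    rw [one_mul, add_zero, show (6 : ℕ) = 4 + 2 from rfl, pow_add, Complex.I_pow_four, Complex.I_sq]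
    ring
  rw [e1, e2] at h
  have : (2 : ℂ) * EG 6 Complex.I = 0 := by linear_combination h
  simpa using this

lemma EG4_I (hM : S_MOD) (hGE : S_GE) : EG 4 Complex.I ≠ 0 := fun h =>
  EG_both hGE Complex.I (by simp) h (EG6_I hM)

lemma EG6_ne (hM : S_MOD) (hGE : S_GE) : ∃ τ : ℂ, 0 < τ.im ∧ EG 6 τ ≠ 0 := by
  obtain ⟨ρ, hρ⟩ : ∃ ρ : ℂ, ρ = ⟨-1/2, √3 / 2⟩ := ⟨_, rfl⟩
  have him : 0 < ρ.im := by rw [hρ]; positivity
  have h3 : √3 * √3 = (3 : ℝ) := Real.mul_self_sqrt (by norm_num)
  have hq : ρ ^ 2 + ρ + 1 = 0 := by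
    rw [hρ]
    apply Complex.ext
    · simp [pow_two]
      nlinarith
    · simp [pow_two]
      ring
  have h1 : ρ + 1 ≠ 0 := by
    intro h
    have := congrArg Complex.im h
    simp at this
    exact him.ne' this
  refine ⟨ρ, him, fun h6 => EG_both hGE ρ him.ne' ?_ h6⟩
  have h := hM 4 0 (-1) 1 1 (by norm_num) ρ him.ne'
  have e1 : (((0 : ℤ) : ℂ) * ρ + ((-1 : ℤ) : ℂ)) / (((1 : ℤ) : ℂ) * ρ + ((1 : ℤ) : ℂ)) = ρ := by
    push_cast
    rw [zero_mul, zero_add, one_mul, div_eq_iff h1]
    linear_combination -hq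
  have e2 : (((1 : ℤ) : ℂ) * ρ + ((1 : ℤ) : ℂ)) ^ 4 = ρ ^ 2 := by
    push_cast
    linear_combination (ρ ^ 2 + 3 * ρ + 1) * hq
  rw [e1, e2] at h
  have e3 : (ρ + 2) * EG 4 ρ = 0 := by linear_combination h + hq * EG 4 ρ
  rcases mul_eq_zero.1 e3 with h4 | h4
  · exfalso
    have := congrArg Complex.im h4
    simp at this
    exact him.ne' this
  · exact h4

/-- evaluation of a polynomial with polynomial coefficients and evaluation of the coefficients -/
lemma eval_aeval {σ : Type*} (A : MvPolynomial σ ℂ) (f : σ → Polynomial ℂ) (s : ℂ) :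
    Polynomial.eval s (MvPolynomial.aeval f A) = MvPolynomial.aeval (fun i => (f i).eval s) A := by
  have h := MvPolynomial.comp_aeval f (Polynomial.aeval s : Polynomial ℂ →ₐ[ℂ] ℂ)
  have h2 := DFunLike.congr_fun h A
  simpa [Polynomial.coe_aeval_eq_eval] using h2

/-- a polynomial in one variable that vanishes at `a n + b` for all naturals `n` vanishes -/
lemma zero_of_nat (P : Polynomial ℂ) (a b : ℂ) (ha : a ≠ 0) (h : ∀ n : ℕ, P.eval (a * n + b) = 0) :
    P = 0 := by
  refine Polynomial.eq_zero_of_infinite_isRoot P ?_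
  refine Set.infinite_of_injective_forall_mem (f := fun n : ℕ => a * n + b) ?_ (fun n => h n)
  intro m n hmn
  have h1 : a * (m : ℂ) = a * n := add_right_cancel hmn
  exact_mod_cast mul_left_cancel₀ ha h1

lemma EG_shift (hM : S_MOD) (k : ℕ) (n : ℕ) (τ : ℂ) (hτ : τ.im ≠ 0) : EG k (τ + n) = EG k τ := by
  have h := hM k 1 n 0 1 (by ring) τ hτ
  push_cast at h
  simpa using h

/-- steps 1 and 2: the homogeneity in both directions -/
lemma spread (hM : S_MOD) (A : MvPolynomial (Fin 3) ℂ)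
    (hA : ∀ τ : ℂ, 0 < τ.im → MvPolynomial.aeval ![τ, EG 4 τ, EG 6 τ] A = 0) (τ : ℂ) (hτ : 0 < τ.im)
    (T s : ℂ) : MvPolynomial.aeval ![T, s ^ 4 * EG 4 τ, s ^ 6 * EG 6 τ] A = 0 := by
  have st1 : ∀ τ : ℂ, 0 < τ.im → ∀ T : ℂ, MvPolynomial.aeval ![T, EG 4 τ, EG 6 τ] A = 0 := by
    intro τ hτ T
    have e : ∀ T : ℂ, Polynomial.eval T (MvPolynomial.aeval
        ![(Polynomial.X : Polynomial ℂ), Polynomial.C (EG 4 τ), Polynomial.C (EG 6 τ)] A) =
        MvPolynomial.aeval ![T, EG 4 τ, EG 6 τ] A := by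
      intro T
      rw [eval_aeval]
      congr 2
      funext i
      fin_cases i <;> simp
    have h0 : MvPolynomial.aeval
        ![(Polynomial.X : Polynomial ℂ), Polynomial.C (EG 4 τ), Polynomial.C (EG 6 τ)] A = 0 := by
      refine zero_of_nat _ 1 τ one_ne_zero (fun n => ?_)
      rw [e]
      have h1 := hA (τ + n) (by simpa using hτ)
      rw [EG_shift hM 4 n τ hτ.ne', EG_shift hM 6 n τ hτ.ne'] at h1
      rw [one_mul, add_comm]
      exact h1
    rw [← e, h0, Polynomial.eval_zero]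
  have e : ∀ s : ℂ, Polynomial.eval s (MvPolynomial.aeval
      ![Polynomial.C T, (Polynomial.X : Polynomial ℂ) ^ 4 * Polynomial.C (EG 4 τ),
        Polynomial.X ^ 6 * Polynomial.C (EG 6 τ)] A) =
      MvPolynomial.aeval ![T, s ^ 4 * EG 4 τ, s ^ 6 * EG 6 τ] A := by
    intro s
    rw [eval_aeval]
    congr 2
    funext i
    fin_cases i <;> simp <;> ring
  have h0 : MvPolynomial.aeval
      ![Polynomial.C T, (Polynomial.X : Polynomial ℂ) ^ 4 * Polynomial.C (EG 4 τ),
        Polynomial.X ^ 6 * Polynomial.C (EG 6 τ)] A = 0 := by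
    have hτ0 : τ ≠ 0 := by
      intro h
      rw [h] at hτ
      simp at hτ
    refine zero_of_nat _ τ 1 hτ0 (fun n => ?_)
    rw [e]
    obtain ⟨σ, hσ⟩ : ∃ σ : ℂ, σ = τ / (n * τ + 1) := ⟨_, rfl⟩
    have hd : (n * τ + 1 : ℂ) ≠ 0 := by
      intro h
      rcases Nat.eq_zero_or_pos n with h1 | h1
      · rw [h1] at h
        simp at h
      · have := congrArg Complex.im h
        simp at this
        rcases this with h2 | h2
        · omega
        · exact hτ.ne' h2
    have him : 0 < σ.im := by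
      rw [hσ, Complex.div_im]
      have h3 : 0 < Complex.normSq (n * τ + 1) := Complex.normSq_pos.2 hd
      have e3 : τ.im * ((n : ℂ) * τ + 1).re / Complex.normSq (n * τ + 1) -
          τ.re * ((n : ℂ) * τ + 1).im / Complex.normSq (n * τ + 1) =
          τ.im / Complex.normSq (n * τ + 1) := by
        rw [← sub_div]
        congr 1
        simp
        ring
      rw [e3]
      positivity
    have h4 : ∀ k : ℕ, EG k σ = (τ * n + 1) ^ k * EG k τ := by
      intro k
      have := hM k 1 0 n 1 (by ring) τ hτ.ne'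
      push_cast at this
      rw [one_mul, add_zero] at this
      rw [hσ, this, mul_comm (n : ℂ) τ]
    have h5 := st1 σ him T
    rw [h4 4, h4 6] at h5
    exact h5
  rw [← e, h0, Polynomial.eval_zero]

/-- the upper half plane -/
abbrev UU : Set ℂ := {τ : ℂ | 0 < τ.im}

lemma isOpen_UU : IsOpen UU := isOpen_lt continuous_const Complex.continuous_im

lemma conn_UU : IsPreconnected UU := (convex_halfSpace_im_gt 0).isPreconnected

/-- the value of a polynomial in `Y` with coefficients in `T`, `X` -/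
def vl (P : Polynomial (MvPolynomial (Fin 2) ℂ)) (T s τ : ℂ) : ℂ :=
  (P.map (MvPolynomial.eval ![T, s ^ 4 * EG 4 τ])).eval (s ^ 6 * EG 6 τ)

lemma diff_c (hH : S_HOL) (c : MvPolynomial (Fin 2) ℂ) (T s : ℂ) :
    DifferentiableOn ℂ (fun τ => MvPolynomial.eval ![T, s ^ 4 * EG 4 τ] c) UU := by
  induction c using MvPolynomial.induction_on with
  | C a => simp
  | add p q hp hq =>
    simp only [map_add]
    exact hp.add hq
  | mul_X p i hp =>
    simp only [map_mul, MvPolynomial.eval_X]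
    refine hp.mul ?_
    fin_cases i
    · simp
    · exact (differentiableOn_const (s ^ 4)).mul (hH 4 (by norm_num)).1

lemma diff_vl (hH : S_HOL) (P : Polynomial (MvPolynomial (Fin 2) ℂ)) (T s : ℂ) :
    DifferentiableOn ℂ (fun τ => vl P T s τ) UU := by
  unfold vl
  induction P using Polynomial.induction_on' with
  | add p q hp hq =>
    simp only [Polynomial.map_add, Polynomial.eval_add]
    exact hp.add hq
  | monomial n a =>
    simp only [Polynomial.map_monomial, Polynomial.eval_monomial]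
    exact (diff_c hH a T s).mul (((differentiableOn_const (s ^ 6)).mul (hH 6 (by norm_num)).1).pow n)

lemma main (hM : S_MOD) (hGE : S_GE) (hH : S_HOL) : ∀ (n : ℕ)
    (P : Polynomial (MvPolynomial (Fin 2) ℂ)), P.natDegree ≤ n →
    (∀ τ : ℂ, 0 < τ.im → ∀ T s : ℂ, s ≠ 0 → vl P T s τ = 0) → P = 0 := by
  have c0 : ∀ P : Polynomial (MvPolynomial (Fin 2) ℂ),
      (∀ τ : ℂ, 0 < τ.im → ∀ T s : ℂ, s ≠ 0 → vl P T s τ = 0) → P.coeff 0 = 0 := by
    intro P hP
    have h1 : ∀ T s : ℂ, s ≠ 0 →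
        MvPolynomial.eval ![T, s ^ 4 * EG 4 Complex.I] (P.coeff 0) = 0 := by
      intro T s hs
      have h := hP Complex.I (by simp) T s hs
      unfold vl at h
      rw [EG6_I hM, mul_zero, ← Polynomial.coeff_zero_eq_eval_zero, Polynomial.coeff_map] at h
      exact h
    have h2 : MvPolynomial.X 1 * P.coeff 0 = 0 := by
      refine MvPolynomial.funext (fun v => ?_)
      rw [map_mul, MvPolynomial.eval_X, map_zero]
      by_cases hv : v 1 = 0
      · rw [hv, zero_mul]
      · obtain ⟨s, hs⟩ := IsAlgClosed.exists_pow_nat_eq (v 1 / EG 4 Complex.I) (n := 4) (by norm_num)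
        have hs0 : s ≠ 0 := by
          intro h
          rw [h, zero_pow (by norm_num)] at hs
          exact (div_ne_zero hv (EG4_I hM hGE)) hs.symm
        have h3 := h1 (v 0) s hs0
        rw [hs, div_mul_cancel₀ _ (EG4_I hM hGE)] at h3
        have e : v = ![v 0, v 1] := by
          funext i
          fin_cases i <;> rfl
        rw [← e] at h3
        rw [h3, mul_zero]
    rcases mul_eq_zero.1 h2 with h3 | h3
    · exact absurd h3 (MvPolynomial.X_ne_zero 1)
    · exact h3
  intro n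
  induction n with
  | zero =>
    intro P hn hP
    rw [Polynomial.eq_C_of_natDegree_le_zero hn, c0 P hP, map_zero]
  | succ n ih =>
    intro P hn hP
    have h0 := c0 P hP
    have hd := Polynomial.divX_mul_X_add P
    rw [h0, map_zero, add_zero] at hd
    have h1 : P.divX = 0 := by
      refine ih P.divX ?_ ?_
      · rw [Polynomial.natDegree_divX_eq_natDegree_tsub_one]
        omega
      · intro τ hτ T s hs
        have hf : AnalyticOnNhd ℂ (fun τ => s ^ 6 * EG 6 τ) UU :=
          ((differentiableOn_const (s ^ 6)).mul (hH 6 (by norm_num)).1).analyticOnNhd isOpen_UU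
        have hg : AnalyticOnNhd ℂ (fun τ => vl P.divX T s τ) UU :=
          (diff_vl hH P.divX T s).analyticOnNhd isOpen_UU
        have hfg : ∀ z ∈ UU, (fun τ => s ^ 6 * EG 6 τ) z * (fun τ => vl P.divX T s τ) z = 0 := by
          intro z hz
          have h := hP z hz T s hs
          rw [← hd] at h
          unfold vl at h ⊢
          rw [Polynomial.map_mul, Polynomial.eval_mul, Polynomial.map_X, Polynomial.eval_X] at h
          rw [mul_comm]
          exact h
        rcases hf.eq_zero_or_eq_zero_of_mul_eq_zero hg hfg conn_UU with h | h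
        · exfalso
          obtain ⟨σ, hσ, h6⟩ := EG6_ne hM hGE
          have := h σ hσ
          exact (mul_ne_zero (pow_ne_zero 6 hs) h6) this
        · exact h τ hτ
    rw [← hd, h1, zero_mul]

/-- **FUN2.** -/
theorem fun2 : S_MOD → S_GE → S_HOL → S_FUN2 := by
  intro hM hGE hH A hA
  obtain ⟨e, he⟩ : ∃ e : Fin 3 → Fin 3, e = ![1, 2, 0] := ⟨_, rfl⟩
  have hinj : Function.Injective e := by
    rw [he]
    decide
  have h0 : MvPolynomial.rename e A = 0 := by
    refine (MvPolynomial.finSuccEquiv ℂ 2).injective ?_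
    rw [map_zero]
    refine main hM hGE hH _ _ le_rfl (fun τ hτ T s _ => ?_)
    unfold vl
    rw [← MvPolynomial.eval_eq_eval_mv_eval', MvPolynomial.eval_rename]
    have h := spread hM A hA τ hτ T s
    rw [MvPolynomial.aeval_eq_eval] at h
    have e1 : (Fin.cons (s ^ 6 * EG 6 τ) ![T, s ^ 4 * EG 4 τ] : Fin 3 → ℂ) ∘ e =
        ![T, s ^ 4 * EG 4 τ, s ^ 6 * EG 6 τ] := by
      rw [he]
      funext i
      fin_cases i <;> rfl
    rw [e1]
    exact h
  exact (MvPolynomial.rename_injective e hinj) (by rw [h0, map_zero])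

end

end Pool.Agent.P8H65.ET
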