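import Pool.Agent.P8H10.ET.StmF
import Pool.Agent.P8H65.ET.Fun2

/-!
# Project ET, package LIMX: limit points of the values of `EP`
-/

set_option autoImplicit false

open Filter Topology
open scoped PeriodPair

namespace Pool.Agent.P8H65.ET

open Pool.Agent.P8H10.ET

noncomputable section

lemma EP_pp (τ : ℂ) (hτ : τ.im ≠ 0) (z : ℂ) : ℘[pp τ hτ] z = EP z τ := by
  have h := ((pp τ hτ).latticeEquivProd.symm.toEquiv.tsum_eq
    (fun l : (pp τ hτ).lattice => (1 / (z - (l : ℂ)) ^ 2 - 1 / (l : ℂ) ^ 2)))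
  show ∑' l : (pp τ hτ).lattice, (1 / (z - (l : ℂ)) ^ 2 - 1 / (l : ℂ) ^ 2) = EP z τ
  unfold EP
  rw [← h]
  refine tsum_congr (fun p => ?_)
  have h1 : (((pp τ hτ).latticeEquivProd.symm.toEquiv p : (pp τ hτ).lattice) : ℂ) =
      p.1 * (pp τ hτ).ω₁ + p.2 * (pp τ hτ).ω₂ := (pp τ hτ).latticeEquiv_symm_apply p
  have h2 : (p.1 : ℂ) * (pp τ hτ).ω₁ + p.2 * (pp τ hτ).ω₂ = (p.1 : ℂ) + p.2 * τ := by
    show (p.1 : ℂ) * 1 + p.2 * τ = _
    rw [mul_one]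
  rw [h1, h2]

lemma mem_pp (τ : ℂ) (hτ : τ.im ≠ 0) (x : ℂ) :
    x ∈ (pp τ hτ).lattice ↔ ∃ m n : ℤ, x = m + n * τ := by
  rw [PeriodPair.mem_lattice]
  show (∃ m n : ℤ, (m : ℂ) * 1 + n * τ = x) ↔ _
  simp only [mul_one, eq_comm]

lemma not_mem_pp (τ : ℂ) (hτ : τ.im ≠ 0) (x : ℂ) : Off x τ ↔ x ∉ (pp τ hτ).lattice := by
  rw [mem_pp]
  unfold Off
  push Not
  rfl

lemma reduce (τ : ℂ) (hτ : τ.im ≠ 0) (x : ℂ) :
    ∃ r : ℂ, ‖r‖ ≤ 1 + ‖τ‖ ∧ x - r ∈ (pp τ hτ).lattice := by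
  obtain ⟨b, hb⟩ : ∃ b : ℝ, b = x.im / τ.im := ⟨_, rfl⟩
  obtain ⟨a, ha⟩ : ∃ a : ℝ, a = x.re - b * τ.re := ⟨_, rfl⟩
  have hx : x = a + b * τ := by
    apply Complex.ext
    · simp [ha]
    · simp [hb, hτ]
  have h1 : ∀ c : ℝ, ‖((Int.fract c : ℝ) : ℂ)‖ ≤ 1 := by
    intro c
    rw [Complex.norm_real, Real.norm_eq_abs, abs_of_nonneg (Int.fract_nonneg c)]
    exact (Int.fract_lt_one c).le
  refine ⟨((Int.fract a : ℝ) : ℂ) + ((Int.fract b : ℝ) : ℂ) * τ, ?_, ?_⟩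
  · refine (norm_add_le _ _).trans ?_
    rw [norm_mul]
    have h2 := mul_le_mul_of_nonneg_right (h1 b) (norm_nonneg τ)
    rw [one_mul] at h2
    exact add_le_add (h1 a) h2
  · rw [mem_pp]
    refine ⟨⌊a⌋, ⌊b⌋, ?_⟩
    have e : ∀ c : ℝ, (c : ℂ) = (⌊c⌋ : ℂ) + ((Int.fract c : ℝ) : ℂ) := by
      intro c
      exact_mod_cast (Int.floor_add_fract c).symm
    have e1 := e a
    have e2 := e b
    linear_combination hx + e1 + τ * e2

/-- **LIMX.** -/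
theorem limx : S_LIMX := by
  intro τ z hτ hz
  have hτ' : τ.im ≠ 0 := hτ.ne'
  obtain ⟨L, hL⟩ : ∃ L : PeriodPair, L = pp τ hτ' := ⟨_, rfl⟩
  have hEP : ∀ x : ℂ, EP x τ = ℘[L] x := fun x => by rw [hL, EP_pp]
  have hzN : ∀ N : ℤ, N ≠ 0 → (N : ℂ) * z ∉ L.lattice := fun N hN => by
    rw [hL]
    exact (not_mem_pp τ hτ' _).1 (hz N hN)
  have hred : ∀ x : ℂ, ∃ r : ℂ, ‖r‖ ≤ 1 + ‖τ‖ ∧ x - r ∈ L.lattice := by
    rw [hL]
    exact reduce τ hτ'
  choose r hr1 hr2 using hred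
  obtain ⟨v, -, φ, hφ, hv⟩ := (isCompact_closedBall (0 : ℂ) (1 + ‖τ‖)).tendsto_subseq
    (x := fun d : ℕ => r ((τ + d) * z)) (fun d => by simpa using hr1 _)
  -- periodicity
  have hper : ∀ x y : ℂ, x - y ∈ L.lattice → ℘[L] x = ℘[L] y := by
    intro x y hxy
    have := L.weierstrassP_add_coe y ⟨x - y, hxy⟩
    rw [← this]
    congr 1
    ring
  -- limit points
  have hlim : ∀ m : ℕ, v + m * z ∉ L.lattice → ℘[L] (v + m * z) ∈ {X : ℂ | ∃ φ : ℕ → ℕ, StrictMono φ ∧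
      Tendsto (fun j => EP ((τ + φ j) * z) τ) atTop (𝓝 X)} := by
    intro m hm
    refine ⟨fun j => φ j + m, fun a b hab => Nat.add_lt_add_right (hφ hab) m, ?_⟩
    have hc : ContinuousAt ℘[L] (v + m * z) := (H667R3.hasDerivAt_weierstrassP L hm).continuousAt
    have h1 : Tendsto (fun j => r ((τ + φ j) * z) + m * z) atTop (𝓝 (v + m * z)) :=
      hv.add_const _
    refine (hc.tendsto.comp h1).congr (fun j => ?_)
    rw [hEP]
    show ℘[L] (r ((τ + φ j) * z) + m * z) = _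
    refine (hper _ _ ?_).symm
    have := hr2 ((τ + φ j) * z)
    push_cast
    convert this using 1
    ring
  -- the exceptional index
  obtain ⟨M, hM⟩ : ∃ M : ℕ, ∀ m m' : ℕ, M ≤ m → M ≤ m' → 2 * v + (m + m' : ℕ) * z ∉ L.lattice := by
    by_cases hs : ∃ s : ℕ, 2 * v + s * z ∈ L.lattice
    · obtain ⟨s, hs⟩ := hs
      refine ⟨s + 1, fun m m' h1 h2 h3 => ?_⟩
      refine hzN ((m + m' : ℕ) - s : ℤ) (by omega) ?_
      have := sub_mem h3 hs
      convert this using 1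
      push_cast
      ring
    · push Not at hs
      exact ⟨0, fun m m' _ _ => hs _⟩
  have hoff : ∀ m : ℕ, M ≤ m → v + m * z ∉ L.lattice := by
    intro m hm h
    refine hM m m hm hm ?_
    have := add_mem h h
    convert this using 1
    push_cast
    ring
  refine Set.infinite_of_injective_forall_mem (f := fun m : ℕ => ℘[L] (v + (M + m : ℕ) * z)) ?_
    (fun m => hlim _ (hoff _ (by omega)))
  intro m m' hmm
  rcases (H667R3.wp_eq_iff L (hoff (M + m) (by omega)) (hoff (M + m') (by omega))).1 hmm with h | h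
  · exfalso
    refine hM (M + m) (M + m') (by omega) (by omega) ?_
    convert h using 1
    push_cast
    ring
  · by_contra hne
    refine hzN ((m : ℤ) - m') (by omega) ?_
    convert h using 1
    push_cast
    ring

end

end Pool.Agent.P8H65.ET
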