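import Pool.Agent.P8H10.ET.StmF

/-!
# Project ET, package SUPE: the quasi-period of a commensurable lattice
-/

set_option autoImplicit false

open Filter Topology
open scoped PeriodPair

namespace Pool.Agent.P8H65.ET

open Pool.Agent.P8H10.ET

/-- **SUPE.** -/
theorem supe : S_SUPP → S_SUPE := by
  intro hS L L' u v hu hv h1 h2
  have hu' : (u : ℂ) ≠ 0 := by exact_mod_cast hu.ne'
  have hv' : (v : ℂ) ≠ 0 := by exact_mod_cast hv.ne'
  obtain ⟨t, ht⟩ : ∃ t : ℕ → ℕ → ℂ,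
      ∀ i j : ℕ, (i : ℂ) * L.ω₁ / u + (j : ℂ) * L.ω₂ / v = t i j := ⟨_, fun _ _ => rfl⟩
  have hnot : ∀ z : ℂ, z ∉ L'.lattice → ∀ i j : ℕ, z / u - t i j ∉ L.lattice := by
    intro z hz i j h
    apply hz
    obtain ⟨m, n, hmn⟩ := PeriodPair.mem_lattice.1 h
    refine PeriodPair.mem_lattice.2 ⟨u * m + i, v * n + j, ?_⟩
    have h3 : z = u * (m * L.ω₁ + n * L.ω₂ + t i j) := by
      rw [hmn]
      field_simp
      ring
    rw [h3, ← ht, h1, h2]
    push_cast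
    field_simp
    ring
  have hS' : ∀ z : ℂ, z ∉ L'.lattice → (u : ℂ) ^ 2 * ℘[L'] z =
      ∑ i ∈ Finset.range u, ∑ j ∈ Finset.range v, (℘[L] (z / u - t i j) - ℘[L] (t i j)) := by
    intro z hz
    have h3 := hS L L' u v hu hv h1 h2 z hz
    simp only [ht] at h3
    exact h3
  simp only [ht]
  obtain ⟨S, hSd⟩ : ∃ S : ℂ, ∑ i ∈ Finset.range u, ∑ j ∈ Finset.range v, ℘[L] (t i j) = S := ⟨_, rfl⟩
  rw [hSd]
  obtain ⟨F, hF⟩ : ∃ F : ℂ → ℂ, F = fun z => H667R3.zeta L' z -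
      (u : ℂ)⁻¹ * ∑ i ∈ Finset.range u, ∑ j ∈ Finset.range v, H667R3.zeta L (z / u - t i j) -
      ((u : ℂ) ^ 2)⁻¹ * S * z := ⟨_, rfl⟩
  have hder : ∀ z : ℂ, z ∉ L'.lattice → HasDerivAt F 0 z := by
    intro z hz
    have d1 := H667R3.hasDerivAt_zeta L' hz
    have d2 : HasDerivAt (fun z => ∑ i ∈ Finset.range u, ∑ j ∈ Finset.range v,
        H667R3.zeta L (z / u - t i j))
        (∑ i ∈ Finset.range u, ∑ j ∈ Finset.range v, (-℘[L] (z / u - t i j) * (u : ℂ)⁻¹)) z := by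
      refine HasDerivAt.fun_sum (fun i _ => HasDerivAt.fun_sum (fun j _ => ?_))
      have d3 : HasDerivAt (fun z : ℂ => z / u - t i j) ((u : ℂ)⁻¹) z := by
        have := ((hasDerivAt_id z).div_const (u : ℂ)).sub_const (t i j)
        simpa using this
      exact HasDerivAt.comp z (H667R3.hasDerivAt_zeta L (hnot z hz i j)) d3
    have d4 : HasDerivAt (fun z : ℂ => ((u : ℂ) ^ 2)⁻¹ * S * z) (((u : ℂ) ^ 2)⁻¹ * S) z := by
      simpa using (hasDerivAt_id z).const_mul (((u : ℂ) ^ 2)⁻¹ * S)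
    have d5 := (d1.sub (d2.const_mul ((u : ℂ)⁻¹))).sub d4
    rw [hF]
    refine d5.congr_deriv ?_
    have h3 := hS' z hz
    have h4 : ∑ i ∈ Finset.range u, ∑ j ∈ Finset.range v, (℘[L] (z / u - t i j) - ℘[L] (t i j)) =
        ∑ i ∈ Finset.range u, ∑ j ∈ Finset.range v, ℘[L] (z / u - t i j) - S := by
      rw [← hSd, ← Finset.sum_sub_distrib]
      exact Finset.sum_congr rfl (fun i _ => Finset.sum_sub_distrib _ _)
    have h5 : ∑ i ∈ Finset.range u, ∑ j ∈ Finset.range v, (-℘[L] (z / u - t i j) * (u : ℂ)⁻¹) =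
        -(u : ℂ)⁻¹ * ∑ i ∈ Finset.range u, ∑ j ∈ Finset.range v, ℘[L] (z / u - t i j) := by
      rw [Finset.mul_sum]
      refine Finset.sum_congr rfl (fun i _ => ?_)
      rw [Finset.mul_sum]
      refine Finset.sum_congr rfl (fun j _ => ?_)
      ring
    rw [h4] at h3
    rw [h5]
    have h6 : ℘[L'] z = ((u : ℂ) ^ 2)⁻¹ * (∑ i ∈ Finset.range u, ∑ j ∈ Finset.range v,
        ℘[L] (z / u - t i j) - S) := by
      rw [← h3]
      field_simp
    rw [h6]
    field_simp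
    ring
  have hconst : ∀ z w : ℂ, z ∉ L'.lattice → w ∉ L'.lattice → F z = F w := by
    intro z w hz hw
    have hd : DifferentiableOn ℂ F (L'.lattice : Set ℂ)ᶜ := fun x hx =>
      (hder x hx).differentiableAt.differentiableWithinAt
    exact (H667R3.isOpen_compl L').is_const_of_deriv_eq_zero (H667R3.isPreconnected_compl L') hd
      (fun x hx => (hder x hx).deriv) hz hw
  have hz0 := L'.ω₁_div_two_notMem_lattice
  have hmem : (u : ℂ) * L'.ω₁ ∈ L'.lattice := by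
    have := L'.lattice.smul_mem (u : ℤ) L'.ω₁_mem_lattice
    simpa using this
  have hz1 : L'.ω₁ / 2 + u * L'.ω₁ ∉ L'.lattice := fun h => hz0 ((H667R3.add_mem_iff L' hmem).mp h)
  have h3 := hconst _ _ hz1 hz0
  rw [hF] at h3
  simp only at h3
  rw [H667R3.zeta_add_coe L' hz0 hmem, H667R3.eta_nsmul L' L'.ω₁_mem_lattice] at h3
  have h4 : ∑ i ∈ Finset.range u, ∑ j ∈ Finset.range v,
      H667R3.zeta L ((L'.ω₁ / 2 + u * L'.ω₁) / u - t i j) =
      ∑ i ∈ Finset.range u, ∑ j ∈ Finset.range v, H667R3.zeta L ((L'.ω₁ / 2) / u - t i j) +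
      u * v * H667R3.eta L L.ω₁ := by
    have h5 : ∀ i j : ℕ, H667R3.zeta L ((L'.ω₁ / 2 + u * L'.ω₁) / u - t i j) =
        H667R3.zeta L ((L'.ω₁ / 2) / u - t i j) + H667R3.eta L L.ω₁ := by
      intro i j
      rw [← H667R3.zeta_add_coe L (hnot _ hz0 i j) L.ω₁_mem_lattice, ← h1]
      congr 1
      field_simp
      ring
    simp only [h5, Finset.sum_add_distrib, Finset.sum_const, Finset.card_range, nsmul_eq_mul]
    ring
  rw [h4] at h3
  have h6 : (u : ℂ) * H667R3.eta L' L'.ω₁ = (u : ℂ)⁻¹ * (u * v * H667R3.eta L L.ω₁) +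
      ((u : ℂ) ^ 2)⁻¹ * S * (u * L'.ω₁) := by
    linear_combination h3
  rw [h6, h1]
  field_simp

end Pool.Agent.P8H65.ET
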