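import Pool.Agent.P8H10.ET.StmF
import Pool.Agent.P8H65.ET.Fun2

/-!
# Project ET, package FUN4: independence of `EG 4`, `EG 6`, `EH`, `EP z`
-/

set_option autoImplicit false

open Filter Topology

namespace Pool.Agent.P8H65.ET

open Pool.Agent.P8H10.ET

noncomputable section

/-- a polynomial in four variables of the weights `4, 6, 2, 2`, sorted by weight -/
def wt4 (Q : MvPolynomial (Fin 4) ℂ) : Polynomial (MvPolynomial (Fin 4) ℂ) :=
  MvPolynomial.aeval ![Polynomial.X ^ 4 * Polynomial.C (MvPolynomial.X 0),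
    Polynomial.X ^ 6 * Polynomial.C (MvPolynomial.X 1), Polynomial.X ^ 2 * Polynomial.C (MvPolynomial.X 2),
    Polynomial.X ^ 2 * Polynomial.C (MvPolynomial.X 3)] Q

/-- the action of a scalar with the weights `4, 6, 2, 2` -/
def act (s : ℂ) (x : Fin 4 → ℂ) : Fin 4 → ℂ := ![s ^ 4 * x 0, s ^ 6 * x 1, s ^ 2 * x 2, s ^ 2 * x 3]

lemma act_act (s t : ℂ) (x : Fin 4 → ℂ) : act t (act s x) = act (s * t) x := by
  unfold act
  funext i
  fin_cases i <;> simp <;> ring

lemma eval_wt4 (Q : MvPolynomial (Fin 4) ℂ) (s : ℂ) (x : Fin 4 → ℂ) :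
    Polynomial.eval s ((wt4 Q).map (MvPolynomial.eval x)) = MvPolynomial.eval (act s x) Q := by
  unfold wt4
  induction Q using MvPolynomial.induction_on with
  | C a =>
    rw [MvPolynomial.aeval_C, MvPolynomial.eval_C]
    have : (algebraMap ℂ (Polynomial (MvPolynomial (Fin 4) ℂ))) a =
        Polynomial.C (MvPolynomial.C a) := rfl
    rw [this, Polynomial.map_C, Polynomial.eval_C, MvPolynomial.eval_C]
  | add p q hp hq => simp only [map_add, Polynomial.map_add, Polynomial.eval_add, hp, hq]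
  | mul_X p i hp =>
    rw [map_mul, Polynomial.map_mul, Polynomial.eval_mul, hp, map_mul, MvPolynomial.eval_X,
      MvPolynomial.aeval_X]
    congr 1
    fin_cases i <;> simp [act] <;> ring

lemma wt4_sum (Q : MvPolynomial (Fin 4) ℂ) (s : ℂ) (x : Fin 4 → ℂ) :
    MvPolynomial.eval (act s x) Q = ∑ k ∈ Finset.range ((wt4 Q).natDegree + 1),
      MvPolynomial.eval x ((wt4 Q).coeff k) * s ^ k := by
  rw [← eval_wt4, Polynomial.eval_map, Polynomial.eval₂_eq_sum_range]

lemma wt4_ne (Q : MvPolynomial (Fin 4) ℂ) (hQ : Q ≠ 0) : wt4 Q ≠ 0 := by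
  intro h
  apply hQ
  refine MvPolynomial.funext (fun x => ?_)
  have h1 := eval_wt4 Q 1 x
  have e : act 1 x = x := by
    unfold act
    funext i
    fin_cases i <;> simp
  rw [h, e, Polynomial.map_zero, Polynomial.eval_zero] at h1
  rw [← h1, map_zero]

lemma coeff_act (Q : MvPolynomial (Fin 4) ℂ) (k : ℕ) (s : ℂ) (x : Fin 4 → ℂ) :
    MvPolynomial.eval (act s x) ((wt4 Q).coeff k) = MvPolynomial.eval x ((wt4 Q).coeff k) * s ^ k := by
  have h : (wt4 Q).map (MvPolynomial.eval (act s x)) =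
      ((wt4 Q).map (MvPolynomial.eval x)).comp (Polynomial.C s * Polynomial.X) := by
    refine Polynomial.funext (fun t => ?_)
    rw [eval_wt4, act_act, Polynomial.eval_comp, Polynomial.eval_mul, Polynomial.eval_C,
      Polynomial.eval_X, eval_wt4]
  have h1 := congrArg (fun p => Polynomial.coeff p k) h
  simp only [Polynomial.comp_C_mul_X_coeff, Polynomial.coeff_map] at h1
  exact h1

lemma tends_inv (τ : ℂ) : Tendsto (fun n : ℕ => (τ + n)⁻¹) atTop (𝓝 0) := by
  refine tendsto_inv₀_cobounded.comp ?_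
  rw [← tendsto_norm_atTop_iff_cobounded]
  refine tendsto_atTop_mono (f := fun n : ℕ => (n : ℝ) - ‖τ‖) (fun n => ?_)
    (tendsto_atTop_add_const_right _ _ tendsto_natCast_atTop_atTop)
  have h := norm_sub_le (τ + n) τ
  rw [add_sub_cancel_left, Complex.norm_natCast] at h
  linarith

lemma add_ne (τ : ℂ) (hτ : 0 < τ.im) (d : ℕ) : τ + d ≠ 0 := by
  intro h
  have := congrArg Complex.im h
  simp at this
  exact hτ.ne' this

lemma im_inv (τ : ℂ) (hτ : 0 < τ.im) (d : ℕ) : 0 < (-1 / (τ + d)).im := by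
  have h := add_ne τ hτ d
  rw [neg_div, one_div, Complex.neg_im, Complex.inv_im]
  have h3 : 0 < Complex.normSq (τ + d) := Complex.normSq_pos.2 h
  have e : (τ + d).im = τ.im := by simp
  rw [e, neg_div, neg_neg]
  positivity

lemma EG_inv (hM : S_MOD) (k : ℕ) (τ : ℂ) (hτ : 0 < τ.im) (d : ℕ) :
    EG k (-1 / (τ + d)) = (τ + d) ^ k * EG k τ := by
  have h := hM k 0 (-1) 1 d (by ring) τ hτ.ne'
  push_cast at h
  simpa using h

/-- for all but one `d` the number `z` is not in the lattice of `-1 / (τ + d)` -/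
lemma off_inv (z τ : ℂ) (hτ : 0 < τ.im) (hz : ∀ N : ℤ, N ≠ 0 → Off (N * z) τ) :
    ∃ D : ℕ, ∀ d : ℕ, D ≤ d → Off z (-1 / (τ + d)) := by
  by_cases h : ∃ d₀ : ℕ, ¬ Off z (-1 / (τ + d₀))
  · obtain ⟨d₀, h0⟩ := h
    refine ⟨d₀ + 1, fun d hd => ?_⟩
    by_contra h1
    unfold Off at h0 h1
    push Not at h0 h1
    obtain ⟨m, n, h0⟩ := h0
    obtain ⟨m', n', h1⟩ := h1
    have n0 := add_ne τ hτ d₀
    have n1 := add_ne τ hτ d
    have e0 : (τ + d₀) * z = m * (τ + d₀) - n := by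
      rw [h0]
      field_simp
      ring
    have e1 : (τ + d) * z = m' * (τ + d) - n' := by
      rw [h1]
      field_simp
      ring
    refine hz ((d : ℤ) - d₀) (by omega) (m' * d - n' - m * d₀ + n) (m' - m) ?_
    push_cast
    linear_combination e1 - e0
  · push Not at h
    exact ⟨0, fun d _ => h d⟩

/-- the relation at `-1 / (τ + d)` -/
lemma rel_inv (hT : S_TRM) (hM : S_MOD) (z τ c₀ : ℂ) (hτ : 0 < τ.im)
    (hc : ∀ d : ℤ, EH (-1 / (τ + d)) = (τ + d) ^ 2 * EH τ - c₀ * (τ + d)) (d : ℕ) :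
    ![EG 4 (-1 / (τ + d)), EG 6 (-1 / (τ + d)), EH (-1 / (τ + d)), EP z (-1 / (τ + d))] =
      act (τ + d) ![EG 4 τ, EG 6 τ, EH τ - c₀ * (τ + d)⁻¹, EP ((τ + d) * z) τ] := by
  have n1 := add_ne τ hτ d
  have h1 := hc d
  have h2 := hT.2.2.1 z τ d hτ
  rw [Int.cast_natCast] at h1 h2
  rw [h1, h2, EG_inv hM 4 τ hτ d, EG_inv hM 6 τ hτ d]
  unfold act
  funext i
  fin_cases i
  · simp
  · simp
  · simp
    field_simp
  · simp

lemma step1 (hT : S_TRM) (hLim : S_LIMX) (hM : S_MOD) (z : ℂ) (Q : MvPolynomial (Fin 4) ℂ)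
    (hQ : ∀ τ : ℂ, 0 < τ.im → Off z τ → MvPolynomial.aeval ![EG 4 τ, EG 6 τ, EH τ, EP z τ] Q = 0)
    (τ : ℂ) (hτ : 0 < τ.im) (hz : ∀ N : ℤ, N ≠ 0 → Off (N * z) τ) (x : ℂ) :
    MvPolynomial.eval ![EG 4 τ, EG 6 τ, EH τ, x] (wt4 Q).leadingCoeff = 0 := by
  obtain ⟨c₀, -, hc⟩ := hT.2.2.2 τ hτ
  obtain ⟨W, hW⟩ : ∃ W, W = wt4 Q := ⟨_, rfl⟩
  rw [← hW]
  have e : ∀ x : ℂ, Polynomial.eval x (MvPolynomial.aeval ![Polynomial.C (EG 4 τ), Polynomial.C (EG 6 τ),
      Polynomial.C (EH τ), (Polynomial.X : Polynomial ℂ)] W.leadingCoeff) =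
      MvPolynomial.eval ![EG 4 τ, EG 6 τ, EH τ, x] W.leadingCoeff := by
    intro x
    rw [eval_aeval, MvPolynomial.aeval_eq_eval]
    congr 2
    funext i
    fin_cases i <;> simp
  have h0 : MvPolynomial.aeval ![Polynomial.C (EG 4 τ), Polynomial.C (EG 6 τ),
      Polynomial.C (EH τ), (Polynomial.X : Polynomial ℂ)] W.leadingCoeff = 0 := by
    refine Polynomial.eq_zero_of_infinite_isRoot _ ((hLim τ z hτ hz).mono ?_)
    rintro X ⟨φ, hφ, hX⟩
    show Polynomial.eval X _ = 0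
    rw [e]
    obtain ⟨w, hw⟩ : ∃ w, w = W.natDegree := ⟨_, rfl⟩
    obtain ⟨D, hD⟩ := off_inv z τ hτ hz
    obtain ⟨Φ, hΦ⟩ : ∃ Φ : ℂ × ℂ → ℂ, Φ = fun p => ∑ k ∈ Finset.range (w + 1),
        MvPolynomial.eval ![EG 4 τ, EG 6 τ, EH τ - c₀ * p.1, p.2] (W.coeff k) * p.1 ^ (w - k) := ⟨_, rfl⟩
    have hcont : Continuous Φ := by
      rw [hΦ]
      refine continuous_finsetSum _ (fun k _ => ?_)
      refine Continuous.mul ?_ (by fun_prop)
      refine (MvPolynomial.continuous_eval (W.coeff k)).comp (continuous_pi (fun i => ?_))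
      fin_cases i
      · exact continuous_const
      · exact continuous_const
      · show Continuous (fun p : ℂ × ℂ => EH τ - c₀ * p.1)
        fun_prop
      · exact continuous_snd
    have hlim : Tendsto (fun j => Φ ((τ + φ j)⁻¹, EP ((τ + φ j) * z) τ)) atTop (𝓝 (Φ (0, X))) :=
      (hcont.tendsto _).comp (((tends_inv τ).comp hφ.tendsto_atTop).prodMk_nhds hX)
    have hz0 : ∀ᶠ j in atTop, Φ ((τ + φ j)⁻¹, EP ((τ + φ j) * z) τ) = 0 := by
      filter_upwards [eventually_ge_atTop D] with j hj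
      have hj' : D ≤ φ j := hj.trans (hφ.le_apply)
      have h1 := hQ _ (im_inv τ hτ (φ j)) (hD _ hj')
      rw [rel_inv hT hM z τ c₀ hτ hc, MvPolynomial.aeval_eq_eval, wt4_sum, ← hW, ← hw] at h1
      have n1 := add_ne τ hτ (φ j)
      have h2 : ∑ k ∈ Finset.range (w + 1), MvPolynomial.eval ![EG 4 τ, EG 6 τ,
          EH τ - c₀ * (τ + φ j)⁻¹, EP ((τ + φ j) * z) τ] (W.coeff k) * (τ + φ j) ^ k =
          (τ + φ j) ^ w * Φ ((τ + φ j)⁻¹, EP ((τ + φ j) * z) τ) := by
        rw [hΦ, Finset.mul_sum]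
        refine Finset.sum_congr rfl (fun k hk => ?_)
        have hk' : k ≤ w := Nat.lt_succ_iff.1 (Finset.mem_range.1 hk)
        have h3 : (τ + φ j) ^ w * ((τ + φ j)⁻¹) ^ (w - k) = (τ + φ j) ^ k := by
          obtain ⟨l, rfl⟩ := Nat.exists_eq_add_of_le hk'
          rw [Nat.add_sub_cancel_left, pow_add, mul_assoc, ← mul_pow, mul_inv_cancel₀ n1, one_pow,
            mul_one]
        rw [← h3]
        ring
      rw [h2] at h1
      rcases mul_eq_zero.1 h1 with h4 | h4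
      · exact absurd h4 (pow_ne_zero _ n1)
      · exact h4
    have h5 : Φ (0, X) = 0 :=
      tendsto_nhds_unique (hlim.congr' hz0) tendsto_const_nhds
    rw [hΦ] at h5
    simp only [mul_zero, sub_zero] at h5
    rw [Finset.sum_range_succ, Finset.sum_eq_zero (fun k hk => ?_), zero_add, Nat.sub_self, pow_zero,
      mul_one] at h5
    · rw [Polynomial.leadingCoeff, ← hw]
      exact h5
    · have hk' : k < w := Finset.mem_range.1 hk
      rw [zero_pow (by omega), mul_zero]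
  rw [← e, h0, Polynomial.eval_zero]

/-- a function continuous on the half plane that vanishes outside of a countable set vanishes -/
lemma zero_of_countable (f : ℂ → ℂ) (hf : ContinuousOn f UU) (E : Set ℂ) (hE : E.Countable)
    (h : ∀ τ ∈ UU, τ ∉ E → f τ = 0) : ∀ τ ∈ UU, f τ = 0 := by
  intro τ hτ
  by_contra hne
  have ho : IsOpen (UU ∩ f ⁻¹' {0}ᶜ) := hf.isOpen_inter_preimage isOpen_UU isOpen_compl_singleton
  obtain ⟨σ, hσ, hσE⟩ := (hE.dense_compl ℝ).inter_open_nonempty _ ho ⟨τ, hτ, hne⟩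
  exact hσ.2 (h σ hσ.1 hσE)

/-- the exceptional points are countably many -/
lemma countable_torsion (z : ℂ) (hz : z.im ≠ 0) :
    {τ : ℂ | ∃ N : ℤ, N ≠ 0 ∧ ¬ Off (N * z) τ}.Countable := by
  refine (Set.countable_range (fun p : ℤ × ℤ × ℤ => ((p.1 : ℂ) * z - p.2.1) / p.2.2)).mono ?_
  rintro τ ⟨N, hN, h⟩
  unfold Off at h
  push Not at h
  obtain ⟨m, n, h⟩ := h
  have hn : n ≠ 0 := by
    rintro rfl
    have := congrArg Complex.im h
    simp at this
    rcases this with h1 | h1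
    · exact hN h1
    · exact hz h1
  refine ⟨(N, m, n), ?_⟩
  have hn' : (n : ℂ) ≠ 0 := by exact_mod_cast hn
  show ((N : ℂ) * z - m) / n = τ
  rw [h]
  field_simp
  ring

lemma off_real (τ : ℂ) (hτ : 0 < τ.im) (x : ℂ) (hx : x.im = 0) (hx' : ∀ m : ℤ, x ≠ m) : Off x τ := by
  intro m n h
  have h1 := congrArg Complex.im h
  simp [hx] at h1
  rcases h1 with h2 | h2
  · rw [h2] at h
    simp at h
    exact hx' m h
  · exact hτ.ne' h2

lemma cont_EH (hA : S_ANE) : ContinuousOn EH UU := by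
  intro τ hτ
  have h1 : Off (1 / 2 : ℂ) τ := off_real τ hτ _ (by norm_num) (fun m h => by
    have h2 : (1 : ℂ) = 2 * m := by linear_combination 2 * h
    have h3 : (1 : ℤ) = 2 * m := by exact_mod_cast h2
    omega)
  have h2 : Off (1 / 2 + 1 : ℂ) τ := off_real τ hτ _ (by norm_num) (fun m h => by
    have h2 : (3 : ℂ) = 2 * m := by linear_combination 2 * h
    have h3 : (3 : ℤ) = 2 * m := by exact_mod_cast h2
    omega)
  exact ((hA _ τ (ne_of_gt hτ) h2).2.continuousAt.sub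
    (hA _ τ (ne_of_gt hτ) h1).2.continuousAt).continuousWithinAt

lemma aeval_comp (g : Fin 3 → ℂ) (f : Fin 4 → MvPolynomial (Fin 3) ℂ) (A : MvPolynomial (Fin 4) ℂ) :
    MvPolynomial.aeval g (MvPolynomial.aeval f A) =
      MvPolynomial.aeval (fun i => MvPolynomial.aeval g (f i)) A :=
  DFunLike.congr_fun (MvPolynomial.comp_aeval f (MvPolynomial.aeval g)) A

/-- **FUN4.** -/
theorem fun4 : S_TRM → S_LIMX → S_MOD → S_FUN2 → S_ANE → S_HOL → S_FUN4 := by
  intro hT hLim hM hF2 hA hH z hz Q hQ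
  by_contra hQ0
  obtain ⟨C, hC⟩ : ∃ C, C = (wt4 Q).leadingCoeff := ⟨_, rfl⟩
  have hC0 : C ≠ 0 := by
    rw [hC]
    exact Polynomial.leadingCoeff_ne_zero.2 (wt4_ne Q hQ0)
  have hCa : ∀ (s : ℂ) (x : Fin 4 → ℂ), MvPolynomial.eval (act s x) C =
      MvPolynomial.eval x C * s ^ (wt4 Q).natDegree := by
    intro s x
    rw [hC]
    exact coeff_act Q _ s x
  have st1 : ∀ τ ∈ UU, τ ∉ {τ : ℂ | ∃ N : ℤ, N ≠ 0 ∧ ¬ Off (N * z) τ} → ∀ x : ℂ,
      MvPolynomial.eval ![EG 4 τ, EG 6 τ, EH τ, x] C = 0 := by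
    intro τ hτ hE x
    rw [hC]
    refine step1 hT hLim hM z Q hQ τ hτ (fun N hN => ?_) x
    by_contra h
    exact hE ⟨N, hN, h⟩
  have st2 : ∀ x : ℂ, ∀ τ ∈ UU, MvPolynomial.eval ![EG 4 τ, EG 6 τ, EH τ, x] C = 0 := by
    intro x
    refine zero_of_countable (fun τ => MvPolynomial.eval ![EG 4 τ, EG 6 τ, EH τ, x] C) ?_ _
      (countable_torsion z hz) (fun τ hτ hE => st1 τ hτ hE x)
    refine (MvPolynomial.continuous_eval C).comp_continuousOn (continuousOn_pi.2 (fun i => ?_))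
    fin_cases i
    · exact (hH 4 (by norm_num)).1.continuousOn
    · exact (hH 6 (by norm_num)).1.continuousOn
    · exact cont_EH hA
    · exact continuousOn_const
  have st3 : ∀ τ ∈ UU, ∀ y x : ℂ, MvPolynomial.eval ![EG 4 τ, EG 6 τ, y, x] C = 0 := by
    intro τ hτ y x
    obtain ⟨c₀, hc₀, hc⟩ := hT.2.2.2 τ hτ
    have e : ∀ y : ℂ, Polynomial.eval y (MvPolynomial.aeval ![Polynomial.C (EG 4 τ),
        Polynomial.C (EG 6 τ), (Polynomial.X : Polynomial ℂ), Polynomial.C x] C) =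
        MvPolynomial.eval ![EG 4 τ, EG 6 τ, y, x] C := by
      intro y
      rw [eval_aeval, MvPolynomial.aeval_eq_eval]
      congr 2
      funext i
      fin_cases i <;> simp
    have h0 : MvPolynomial.aeval ![Polynomial.C (EG 4 τ),
        Polynomial.C (EG 6 τ), (Polynomial.X : Polynomial ℂ), Polynomial.C x] C = 0 := by
      refine Polynomial.eq_zero_of_infinite_isRoot _ ?_
      refine Set.infinite_of_injective_forall_mem (f := fun d : ℕ => EH τ - c₀ * (τ + d)⁻¹) ?_ ?_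
      · intro a b hab
        have h1 : c₀ * (τ + a)⁻¹ = c₀ * (τ + b)⁻¹ := by
          have : EH τ - c₀ * (τ + a)⁻¹ = EH τ - c₀ * (τ + b)⁻¹ := hab
          linear_combination -this
        have h2 := inv_injective (mul_left_cancel₀ hc₀ h1)
        exact_mod_cast add_left_cancel h2
      · intro d
        show Polynomial.eval _ _ = 0
        rw [e]
        have h1 := st2 ((τ + d) ^ 2 * x) _ (im_inv τ hτ d)
        have h2 : ![EG 4 (-1 / (τ + d)), EG 6 (-1 / (τ + d)), EH (-1 / (τ + d)), (τ + d) ^ 2 * x] =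
            act (τ + d) ![EG 4 τ, EG 6 τ, EH τ - c₀ * (τ + d)⁻¹, x] := by
          have n1 := add_ne τ hτ d
          have h1 := hc d
          rw [Int.cast_natCast] at h1
          rw [h1, EG_inv hM 4 τ hτ d, EG_inv hM 6 τ hτ d]
          unfold act
          funext i
          fin_cases i
          · simp
          · simp
          · simp
            field_simp
          · simp
        rw [h2, hCa] at h1
        rcases mul_eq_zero.1 h1 with h3 | h3
        · exact h3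
        · exact absurd h3 (pow_ne_zero _ (add_ne τ hτ d))
    rw [← e, h0, Polynomial.eval_zero]
  apply hC0
  refine MvPolynomial.funext (fun v => ?_)
  have h1 := hF2 (MvPolynomial.aeval ![(MvPolynomial.X 1 : MvPolynomial (Fin 3) ℂ), MvPolynomial.X 2,
    MvPolynomial.C (v 2), MvPolynomial.C (v 3)] C) (fun τ hτ => by
      rw [← st3 τ hτ (v 2) (v 3), aeval_comp, MvPolynomial.aeval_eq_eval]
      congr 2
      funext i
      fin_cases i <;> simp)
  have h2 := congrArg (MvPolynomial.aeval ![(0 : ℂ), v 0, v 1]) h1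
  rw [aeval_comp, map_zero, MvPolynomial.aeval_eq_eval] at h2
  rw [map_zero, ← h2]
  congr 2
  funext i
  fin_cases i <;> simp

end

end Pool.Agent.P8H65.ET
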